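import Pool.Agent.MP38d52fLib.Bridge
set_option autoImplicit false

open Set
open scoped ContDiff

namespace Pool.Agent.Results.MP_38d52f_an.SquareSumCM

/-- The two-parameter Mittag-Leffler function. -/
noncomputable def ML (a b : ℝ) (z : ℂ) : ℂ :=
  ∑' k : ℕ, z ^ k / Complex.Gamma ((a : ℂ) * k + (b : ℂ))

/-- The square sum of the problem. -/
noncomputable def f (α t : ℝ) : ℝ :=
  ‖ML (2 * α) 1 (-(t : ℂ))‖ ^ 2 + t * ‖ML (2 * α) (1 + α) (-(t : ℂ))‖ ^ 2

/-- Complete monotonicity on the open half line. -/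
def CompletelyMonotone (g : ℝ → ℝ) : Prop :=
  ContDiffOn ℝ ∞ g (Ioi 0) ∧ ∀ n : ℕ, ∀ t : ℝ, 0 < t → 0 ≤ (-1 : ℝ) ^ n * iteratedDeriv n g t

theorem result : ∀ α : ℝ, 0 < α → α ≤ 1 / 2 → CompletelyMonotone (f α) := by
  intro α h0 h1
  have e : f α = Pool.Agent.MP38d52fLib.fr (2 * α) := by
    funext t
    exact Pool.Agent.MP38d52fLib.f_eq_fr α t
  rw [e]
  exact ⟨(Pool.Agent.MP38d52fLib.fr_contDiff (by linarith) (by linarith)).contDiffOn,
    fun n t ht => Pool.Agent.MP38d52fLib.fr_cm (by linarith) (by linarith) n ht⟩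

end Pool.Agent.Results.MP_38d52f_an.SquareSumCM
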